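import Pool.Agent.NH54.MG.All

/-!
# A Morse local-to-global group with a non-discrete set of translation lengths

There are a finitely generated group `G` and a finite generating set `S` such that the Cayley graph of `G`
has the Morse local-to-global property, and the set `T_S(G)` of the translation lengths of all Morse elements
contains `1` and elements `τ ≠ 1` arbitrarily close to `1`. So `T_S(G)` is not discrete. This disproves the
statement of Q1.

The group: let `N` be the free group with basis `y p`, `p ∈ ℤ`, `D = N ⋊ ℤ` (the generator of `ℤ` shifts the
basis; `D` is a free group of rank two), `K = F₂ ≀ D` (finitely supported lamps), and `G` the HNN extension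
`⟨K, t ∣ t c t⁻¹ = Θ c, c ∈ C⟩` for a subgroup `C ≤ N` and an injective map `Θ : N → N`. For a very sparse
sequence of numbers `q n`, `s n`, `a n` the group `C` is generated by the elements
`(y (4 ^ (a n + i)))⁻¹ * y (4 ^ (a n + j))`, `i, j < q n`, and `Θ` maps `y (4 ^ (a n + j))` to
`y (4 ^ (a n + j + 1))` for `j + 1 < q n`, and to `y (4 ^ a n) * y (4 ^ s n)` for `j + 1 = q n`. All letters
of `N` are very long in `K`, the letters of the later blocks much longer than those of the earlier ones, but
the `q n`-th power of the element `p n = g₀ t⁻¹ g₁⁻¹` is conjugate to `t ^ (- q n) * y (4 ^ s n)⁻¹`. So the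
translation length of `p n` is at most `1 + (2 * 4 ^ s n + 1) / q n ≤ 1 + 1 / (n + 1)`, and it is larger
than `1`. The translation length of `t` is `1`.

The local-to-global property: the cosets of `K` are wide (this is the role of the lamps), so that every Morse
quasi-geodesic makes progress in the Bass-Serre tree of the HNN extension; conversely every path which makes
progress in the tree is Morse, because the stabilisers of long paths of the tree are trivial and parallel
paths which are far apart are expensive. The progress in the tree is a local property.
-/

set_option autoImplicit false

namespace Pool.Agent.Results.MP_284ea2_al.NondiscreteTranslationLengths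

open Pool.Agent.NH54.MG

/-- A finitely generated Morse local-to-global group `G` for which the set of the translation lengths of the
Morse elements is not discrete: `1` is an element and an accumulation point of this set. -/
theorem result : ∃ (G : Type) (_ : Group G) (S : Set G), S.Finite ∧ Subgroup.closure S = ⊤ ∧
    MLTG (CG.dst : CG S → CG S → ℝ) ∧
    (1 : ℝ) ∈ TSC S ∧ ∀ δ : ℝ, 0 < δ → ∃ τ ∈ TSC S, 1 < τ ∧ τ < 1 + δ := by
  obtain ⟨P, h1, h2, h3, h4⟩ := all_FINC
  exact ⟨P.G, inferInstance, P.S, h1, h2, h3, h4⟩

end Pool.Agent.Results.MP_284ea2_al.NondiscreteTranslationLengths
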